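import Pool.Agent.H93.CT.Stmts

/-!
Module CLM of project CT: adding a column to a condition.
-/

set_option linter.unusedVariables false
set_option linter.unusedSectionVars false
set_option synthInstance.maxSize 100000

namespace SW

section
variable {M : Type} [SetStr M] [ZF M]

/-- the entry of the new column in row `b` -/
noncomputable def clm_e (b : M) : M := sep (sing (opair emp emp)) (fun _ => b = emp)

theorem clm_e_df : Fn1 (fun b : M => clm_e b) := by unfold clm_e; infer_instance

instance {n : ℕ} {t : (Fin n → M) → M} [ht : DfT t] : DfT (fun v => clm_e (t v)) :=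
  clm_e_df.comp1 ht

theorem clm_mem_e {b z : M} : E z (clm_e b) ↔ z = opair emp emp ∧ b = emp := by
  unfold clm_e
  have h : Cl (fun _ : M => b = emp) := inferInstance
  rw [mem_sep' h, mem_sing]

theorem clm_e_emp : clm_e (emp : M) = sing (opair emp emp) := by
  refine ext fun z => ?_
  rw [clm_mem_e, mem_sing]
  simp

/-- the tree laws depend only on the column `emp` -/
theorem clm_tlw {p q : M} (h : ∀ b x, Et q emp b x ↔ Et p emp b x) (hp : TLw p) : TLw q := by
  have hl : ∀ b v, Lv q b v ↔ Lv p b v := fun b v => by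
    unfold Lv
    simp only [h]
  unfold TLw at hp ⊢
  simpa only [hl, h] using hp

/-- the laws for a column depend only on this column, the tree and the subsets of `p` -/
theorem clm_klw {K p q : M} (h : ∀ b x, Et q K b x ↔ Et p K b x)
    (hl : ∀ b v, Lv p b v → Lv q b v) (hs : Sub p q) (hp : KLw K p) : KLw K q := by
  have hi : ∀ b v F, InB q K b v F ↔ InB p K b v F := fun b v F => by
    unfold InB
    simp only [h]
  have ha : ∀ b, Act q K b ↔ Act p K b := fun b => by
    unfold Act
    simp only [hi]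
  obtain ⟨h1, h2, h3, h4, h5, h6, h7, h8⟩ := hp
  refine ⟨?_, ?_, ?_, ?_, ?_, ?_, ?_, ?_⟩
  · simpa only [h] using h1
  · simpa only [h] using h2
  · intro b v F hb
    obtain ⟨h9, h10⟩ := h3 b v F ((hi b v F).1 hb)
    exact ⟨hl b v h9, h10⟩
  · simpa only [hi] using h4
  · simpa only [hi, ha] using h5
  · simpa only [hi, ha] using h6
  · intro b v F v' F' u hb hb' hm
    obtain ⟨r, hr, hr'⟩ := h7 b v F v' F' u ((hi _ _ _).1 hb) ((hi _ _ _).1 hb') hm
    exact ⟨r, hr.trans hs, hr'⟩
  · simpa only [h, ha] using h8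

theorem clm_main {w Z I a p K : M} (hb : Bs w Z) (hI : ¬ E emp I) (hc : Cnd w Z I a p)
    (ha : a ≠ emp) (hK : E K I) (hC : CbA M) (hf : ZFacts w Z) :
    ∃ q, Cnd w Z I a q ∧ Sub p q ∧ Col q K := by
  by_cases hcol : Col p K
  · exact ⟨p, hc, Sub.refl p, hcol⟩
  have hKe : K ≠ emp := fun h => hI (h ▸ hK)
  obtain ⟨⟨h1, h2, h3, h4, h5, h6, h7⟩, ht, hk⟩ := hc
  have haw : E a w := h1.resolve_right ha
  have hao : Ord a := hb.w1.1.mem haw
  have hea : E emp a := emp_mem_ord hao ha
  have hfn : Fn1 (fun b : M => opair K (opair b (clm_e b))) := inferInstance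
  obtain ⟨q, hq⟩ : ∃ q, q = bun p (img a (fun b => opair K (opair b (clm_e b)))) := ⟨_, rfl⟩
  have hmem : ∀ z, E z q ↔ E z p ∨ ∃ b, E b a ∧ z = opair K (opair b (clm_e b)) := fun z => by
    rw [hq, mem_bun, mem_img' hfn]
  have hpq : Sub p q := fun z hz => (hmem z).2 (Or.inl hz)
  have het : ∀ K' b x, Et q K' b x ↔ Et p K' b x ∨ (K' = K ∧ E b a ∧ x = clm_e b) := by
    intro K' b x
    unfold Et
    rw [hmem]
    refine or_congr_right ?_
    constructor
    · rintro ⟨b', hb', h⟩
      rw [opair_inj, opair_inj] at h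
      obtain ⟨rfl, rfl, rfl⟩ := h
      exact ⟨rfl, hb', rfl⟩
    · rintro ⟨rfl, hb, rfl⟩
      exact ⟨b, hb, rfl⟩
  have hnew : ∀ b x, Et q K b x ↔ E b a ∧ x = clm_e b := by
    intro b x
    rw [het]
    constructor
    · rintro (h | ⟨_, h⟩)
      · exact absurd ⟨b, x, h⟩ hcol
      · exact h
    · exact fun h => Or.inr ⟨rfl, h⟩
  have hold : ∀ K', K' ≠ K → ∀ b x, Et q K' b x ↔ Et p K' b x := by
    intro K' hne b x
    rw [het]
    constructor
    · rintro (h | ⟨h, _⟩)
      · exact h
      · exact absurd h hne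
    · exact Or.inl
  have hemp := hold emp (Ne.symm hKe)
  have hlv : ∀ b v, Lv q b v ↔ Lv p b v := fun b v => by
    unfold Lv
    simp only [hemp]
  have hin : ∀ b v F, InB q K b v F ↔ b = emp ∧ v = emp ∧ F = emp := by
    intro b v F
    constructor
    · rintro ⟨x, hx, hz⟩
      rw [hnew] at hx
      obtain ⟨hba, rfl⟩ := hx
      rw [clm_mem_e, opair_inj] at hz
      exact ⟨hz.2, hz.1⟩
    · rintro ⟨rfl, rfl, rfl⟩
      refine ⟨clm_e emp, (hnew _ _).2 ⟨hea, rfl⟩, ?_⟩
      rw [clm_mem_e]
      exact ⟨rfl, rfl⟩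
  have hact : ∀ b, Act q K b ↔ b = emp := by
    intro b
    constructor
    · rintro ⟨v, F, h⟩
      exact ((hin _ _ _).1 h).1
    · rintro rfl
      exact ⟨emp, emp, (hin _ _ _).2 ⟨rfl, rfl, rfl⟩⟩
  have hlvl : Lv q emp emp := by
    rw [hlv]
    obtain ⟨x, hx⟩ := h6 emp hea
    exact ht.2.1 x hx
  have hfe : Fnt (emp : M) := finF.emp
  have hfs : ∀ b : M, Fnt (clm_e b) := fun b =>
    finF.sub (finF.ins (a := opair emp emp) hfe) fun z hz => by
      rw [clm_mem_e] at hz
      rw [mem_ins]
      exact Or.inr hz.1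
  have hpair : ∀ b z : M, E z (clm_e b) → ∃ v F, z = opair v F := by
    intro b z hz
    rw [clm_mem_e] at hz
    exact ⟨emp, emp, hz.1⟩
  have hnd : Nd (emp : M) emp := by
    refine ⟨fun z hz => absurd hz (not_mem_emp z), fun x hx => absurd hx (not_mem_emp x),
      fun x n n' h => absurd h (not_mem_emp _), fun x x' n h => absurd h (not_mem_emp _), ?_⟩
    intro F hF
    by_contra hcon
    push Not at hcon
    have hs : Sub om F := by
      intro n hn
      by_contra hnF
      obtain ⟨x, hx⟩ := hcon n hn hnF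
      exact not_mem_emp _ hx
    have hom : Fnt (om : M) := finF.sub hF hs
    -- the set of natural numbers is not finite
    have h1 : E (card (om : M)) om := finF.card_om hom
    have h2 := finF.card_le hom (Ord_om.sub_of_mem (suc_mem_om h1))
    have h3 : ∀ n : M, E n om → card n = n := by
      refine om_ind (C := fun n : M => card n = n) inferInstance finF.card_emp ?_
      intro n hn ih
      have : suc n = ins n n := ext fun z => by rw [mem_suc, mem_ins]
      rw [this, finF.card_ins (finF.nat hn) (not_mem_self n), ih, this]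
    rw [h3 _ (suc_mem_om h1)] at h2
    exact not_mem_self _ (h2 _ (by simp))
  refine ⟨q, ⟨⟨h1, ?_, ?_, ?_, ?_, ?_, ?_⟩, clm_tlw hemp ht, ?_⟩, hpq, ?_⟩
  · rw [hq]
    exact hC.bun h2 (hC.img _ hfn (hb.w1.2.2 a haw))
  · intro z hz
    rcases (hmem z).1 hz with h | ⟨b, hba, rfl⟩
    · exact h3 z h
    · refine ⟨K, b, clm_e b, Or.inr hK, hba, ?_, rfl⟩
      refine hf.row (hb.w1.1.trans haw hba) (hC.fin (hfs b)) (hpair b) ?_
      intro v F h
      rw [clm_mem_e, opair_inj] at h
      obtain ⟨⟨rfl, rfl⟩, rfl⟩ := h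
      exact ⟨hnd, hfe, fun z hz => absurd hz (not_mem_emp z)⟩
  · intro K' b x x' hx hx'
    by_cases hne : K' = K
    · subst hne
      rw [hnew] at hx hx'
      rw [hx.2, hx'.2]
    · rw [hold K' hne] at hx hx'
      exact h4 K' b x x' hx hx'
  · intro K' b hcK hba
    by_cases hne : K' = K
    · subst hne
      exact ⟨clm_e b, (hnew _ _).2 ⟨hba, rfl⟩⟩
    · simp only [Col, hold K' hne] at hcK ⊢
      exact h5 K' b hcK hba
  · intro b hba
    simp only [hemp]
    exact h6 b hba
  · intro b x hx
    rw [hemp] at hx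
    exact h7 b x hx
  · intro K' hK'
    by_cases hne : K' = K
    · subst hne
      refine ⟨?_, ?_, ?_, ?_, ?_, ?_, ?_, ?_⟩
      · intro b x hx
        rw [hnew] at hx
        obtain ⟨_, rfl⟩ := hx
        exact ⟨hC.fin (hfs b), hpair b⟩
      · intro x hx
        rw [hnew] at hx
        rw [hx.2, clm_e_emp]
      · intro b v F h
        rw [hin] at h
        obtain ⟨rfl, rfl, rfl⟩ := h
        exact ⟨hlvl, hfe, fun z hz => absurd hz (not_mem_emp z),
          fun n x hn => absurd hn (not_mem_emp n)⟩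
      · intro b v F F' h h'
        rw [hin] at h h'
        rw [h.2.2, h'.2.2]
      · intro c b v F e hcb _ hb' _
        rw [hact] at hb'
        rw [hb'] at hcb
        exact absurd hcb (not_mem_emp c)
      · intro c b v F hcb h _
        rw [hin] at h
        rw [h.1] at hcb
        exact absurd hcb (not_mem_emp c)
      · intro b v F v' F' u h h' hm
        rw [hin] at h
        obtain ⟨d, n, n', hn, _⟩ := hm
        rw [h.2.1] at hn
        exact absurd hn (not_mem_emp _)
      · intro b x hx hbe hlim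
        rw [hnew] at hx
        obtain ⟨d, _, hd, hd'⟩ := hlim emp (emp_mem_ord (hao.mem hx.1) hbe)
        rw [hact] at hd'
        rw [hd'] at hd
        exact absurd hd (not_mem_emp _)
    · exact clm_klw (hold K' hne) (fun b v h => (hlv b v).2 h) hpq (hk K' hK')
  · exact ⟨emp, clm_e emp, (hnew _ _).2 ⟨hea, rfl⟩⟩

end

theorem ct_clm (hcba : CBAStmt) (hzf : ZFXStmt) : CLMStmt := by
  intro M _ _ w Z I a p K hb hI hc ha hK
  exact clm_main hb hI hc ha hK (hcba M) (hzf M w Z hb)

end SW
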