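import Pool.Agent.H28.CT.CLM

/-!
Module ROW of project CT: adding a row to a condition.
-/

set_option linter.unusedVariables false
set_option linter.unusedSectionVars false
set_option synthInstance.maxSize 100000

namespace SW

section
variable {M : Type} [SetStr M] [ZF M]

/-- the first component of a pair -/
noncomputable def row_fst (z : M) : M := the (fun K => ∃ y, z = opair K y)

theorem row_fst_df : Fn1 (fun z : M => row_fst z) := by unfold row_fst; infer_instance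

theorem row_fst_eq (K y : M) : row_fst (opair K y) = K := by
  unfold row_fst
  refine the_eq (p := fun K' => ∃ y', opair K y = opair K' y') ⟨y, rfl⟩ ?_
  rintro z ⟨y', h⟩
  rw [opair_inj] at h
  exact h.1.symm

theorem row_ent {w Z I a p K b x : M} (hp : Shp w Z I a p) (h : Et p K b x) :
    (K = emp ∨ E K I) ∧ E b a ∧ E x Z := by
  obtain ⟨K', b', x', h1, h2, h3, h4⟩ := hp.2.2.1 _ h
  rw [opair_inj, opair_inj] at h4
  obtain ⟨rfl, rfl, rfl⟩ := h4
  exact ⟨h1, h2, h3⟩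

theorem row_main {w Z I a p t g : M} {h : M → M} (hb : Bs w Z) (hI : ¬ E emp I)
    (hc : Cnd w Z I a p) (hh : Fn1 h) (hlo : LevOK a p t) (hg : Sub g om)
    (hro : ∀ K, E K I → Col p K → RowOK a p t K (h K)) (hC : CbA M) (hf : ZFacts w Z)
    (hw : WFacts w) :
    ∃ q, Cnd w Z I (suc a) q ∧ Sub p q ∧ Et q emp a (opair t g) ∧
      (∀ K, E K I → (Col q K ↔ Col p K)) ∧ ∀ K, E K I → Col p K → Et q K a (h K) := by
  obtain ⟨hs, ht, hk⟩ := hc
  have hent : ∀ {K b x : M}, Et p K b x → (K = emp ∨ E K I) ∧ E b a ∧ E x Z :=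
    fun h => row_ent hs h
  obtain ⟨h1, h2, h3, h4, h5, h6, h7⟩ := hs
  have haw : E a w := by
    rcases h1 with h1 | rfl
    · exact h1
    · exact hw.om _ emp_mem_om
  have hnaa : ¬ E a a := not_mem_self a
  have hna : ∀ {K x : M}, ¬ Et p K a x := fun h => hnaa (hent h).2.1
  have hfn : Fn1 (fun K : M => opair K (opair a (h K))) := inferInstance
  have hCd : Cl (fun K : M => Col p K) := inferInstance
  obtain ⟨q, hq⟩ : ∃ q, q = bun (ins (opair emp (opair a (opair t g))) p)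
    (img (sep I (fun K => Col p K)) (fun K => opair K (opair a (h K)))) := ⟨_, rfl⟩
  have hmem : ∀ z, E z q ↔ E z p ∨ z = opair emp (opair a (opair t g)) ∨
      ∃ K, (E K I ∧ Col p K) ∧ z = opair K (opair a (h K)) := fun z => by
    rw [hq, mem_bun, mem_img' hfn, mem_ins, or_assoc]
    simp only [mem_sep' hCd]
  have hpq : Sub p q := fun z hz => (hmem z).2 (Or.inl hz)
  have het : ∀ K b x, Et q K b x ↔ Et p K b x ∨ (K = emp ∧ b = a ∧ x = opair t g) ∨
      (E K I ∧ Col p K ∧ b = a ∧ x = h K) := by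
    intro K b x
    unfold Et
    rw [hmem, opair_inj, opair_inj]
    refine or_congr_right (or_congr_right ?_)
    constructor
    · rintro ⟨K', ⟨hK, hcol⟩, h⟩
      rw [opair_inj, opair_inj] at h
      obtain ⟨rfl, rfl, rfl⟩ := h
      exact ⟨hK, hcol, rfl, rfl⟩
    · rintro ⟨hK, hcol, rfl, rfl⟩
      exact ⟨K, ⟨hK, hcol⟩, rfl⟩
  have hne : ∀ {K : M}, E K I → K ≠ emp := fun hK h => hI (h ▸ hK)
  have hete : ∀ b x, Et q emp b x ↔ Et p emp b x ∨ (b = a ∧ x = opair t g) := by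
    intro b x
    rw [het]
    refine or_congr_right ?_
    constructor
    · rintro (h | ⟨h, _⟩)
      · exact h.2
      · exact absurd h hI
    · exact fun h => Or.inl ⟨rfl, h⟩
  have hetK : ∀ {K : M}, E K I → ∀ b x, Et q K b x ↔ Et p K b x ∨ (Col p K ∧ b = a ∧ x = h K) := by
    intro K hK b x
    rw [het]
    refine or_congr_right ?_
    constructor
    · rintro (h | h)
      · exact absurd h.1 (hne hK)
      · exact h.2
    · exact fun h => Or.inr ⟨hK, h⟩
  have hlv : ∀ b v, Lv q b v ↔ Lv p b v ∨ (b = a ∧ E v t) := by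
    intro b v
    unfold Lv
    simp only [hete]
    constructor
    · rintro ⟨t', g', h | ⟨h, h'⟩, hv⟩
      · exact Or.inl ⟨t', g', h, hv⟩
      · rw [opair_inj] at h'
        rw [← h'.1]
        exact Or.inr ⟨h, hv⟩
    · rintro (⟨t', g', h, hv⟩ | ⟨rfl, hv⟩)
      · exact ⟨t', g', Or.inl h, hv⟩
      · exact ⟨t, g, Or.inr ⟨rfl, rfl⟩, hv⟩
  have hlvp : ∀ {b v : M}, Lv p b v → E b a := by
    rintro b v ⟨t', g', h, _⟩
    exact (hent h).2.1
  have hlva : ∀ {b v : M}, E b a → Lv q b v → Lv p b v := by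
    intro b v hba h
    rcases (hlv b v).1 h with h | ⟨rfl, _⟩
    · exact h
    · exact absurd hba hnaa
  have hin : ∀ {K : M}, E K I → ∀ b v F, InB q K b v F ↔
      InB p K b v F ∨ (Col p K ∧ b = a ∧ E (opair v F) (h K)) := by
    intro K hK b v F
    unfold InB
    simp only [hetK hK]
    constructor
    · rintro ⟨x, h | ⟨h, h', rfl⟩, hv⟩
      · exact Or.inl ⟨x, h, hv⟩
      · exact Or.inr ⟨h, h', hv⟩
    · rintro (⟨x, h, hv⟩ | ⟨h, h', hv⟩)
      · exact ⟨x, Or.inl h, hv⟩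
      · exact ⟨_, Or.inr ⟨h, h', rfl⟩, hv⟩
  have hinp : ∀ {K b v F : M}, InB p K b v F → E b a := by
    rintro K b v F ⟨x, h, _⟩
    exact (hent h).2.1
  have hina : ∀ {K b v F : M}, E K I → E b a → InB q K b v F → InB p K b v F := by
    intro K b v F hK hba h
    rcases (hin hK b v F).1 h with h | ⟨_, rfl, _⟩
    · exact h
    · exact absurd hba hnaa
  have hactp : ∀ {K b : M}, Act p K b → E b a := by
    rintro K b ⟨v, F, h⟩
    exact hinp h
  have hact1 : ∀ {K b : M}, E K I → Act q K b →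
      Act p K b ∨ (Col p K ∧ b = a ∧ ∃ z, E z (h K)) := by
    rintro K b hK ⟨v, F, h⟩
    rcases (hin hK b v F).1 h with h | ⟨h, h', hz⟩
    · exact Or.inl ⟨v, F, h⟩
    · exact Or.inr ⟨h, h', _, hz⟩
  have hacta : ∀ {K b : M}, E K I → E b a → Act q K b → Act p K b := by
    intro K b hK hba h
    rcases hact1 hK h with h | ⟨_, rfl, _⟩
    · exact h
    · exact absurd hba hnaa
  have hao : Ord a := hw.ord haw
  refine ⟨q, ⟨⟨Or.inl (hw.suc haw), ?_, ?_, ?_, ?_, ?_, ?_⟩, ⟨?_, ?_, ?_, ?_⟩, ?_⟩, hpq, ?_, ?_, ?_⟩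
  · -- countable
    have hsp : Cb (sing (opair (emp : M) (opair a (opair t g)))) := by
      refine hC.fin (finF.sub (finF.ins (a := opair emp (opair a (opair t g))) finF.emp) ?_)
      intro z hz
      rw [mem_sing] at hz
      rw [mem_ins]
      exact Or.inr hz
    have hcols : Cb (sep I (fun K => Col p K)) := by
      refine hC.sub (hC.img _ row_fst_df h2) fun K hK => ?_
      rw [mem_sep' hCd] at hK
      obtain ⟨_, b, x, hx⟩ := hK
      rw [mem_img' row_fst_df]
      exact ⟨_, hx, (row_fst_eq _ _).symm⟩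
    rw [hq]
    exact hC.bun (hC.bun h2 hsp) (hC.img _ hfn hcols)
  · -- entries
    intro z hz
    rcases (hmem z).1 hz with hz | rfl | ⟨K, ⟨hK, hcol⟩, rfl⟩
    · obtain ⟨K, b, x, h8, h9, h10⟩ := h3 z hz
      exact ⟨K, b, x, h8, mem_suc.2 (Or.inl h9), h10⟩
    · exact ⟨emp, a, opair t g, Or.inl rfl, mem_suc.2 (Or.inr rfl),
        hf.lev haw hlo.nod hlo.ctb hg, rfl⟩
    · have hr := hro K hK hcol
      refine ⟨K, a, h K, Or.inr hK, mem_suc.2 (Or.inr rfl),
        hf.row haw hr.ctb.1 hr.ctb.2 fun v F hv => ?_, rfl⟩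
      obtain ⟨h8, h9, h10, _⟩ := hr.nod v F hv
      exact ⟨hlo.nod v h8, h9, h10⟩
  · -- unique
    intro K b x x' hx hx'
    rw [het] at hx hx'
    rcases hx with hx | ⟨rfl, rfl, rfl⟩ | ⟨hK, hcol, rfl, rfl⟩
    · rcases hx' with hx' | ⟨rfl, rfl, rfl⟩ | ⟨hK, hcol, rfl, rfl⟩
      · exact h4 K b x x' hx hx'
      · exact absurd hx hna
      · exact absurd hx hna
    · rcases hx' with hx' | ⟨_, _, rfl⟩ | ⟨hK, _⟩
      · exact absurd hx' hna
      · rfl
      · exact absurd hK hI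
    · rcases hx' with hx' | ⟨rfl, _⟩ | ⟨_, _, _, rfl⟩
      · exact absurd hx' hna
      · exact absurd hK hI
      · rfl
  · -- full
    rintro K b ⟨b', x', hx'⟩ hba
    rw [het] at hx'
    have hcol : K = emp ∨ (E K I ∧ Col p K) := by
      rcases hx' with hx' | ⟨rfl, _⟩ | ⟨hK, hcol, _⟩
      · exact (hent hx').1.imp id fun hK => ⟨hK, b', x', hx'⟩
      · exact Or.inl rfl
      · exact Or.inr ⟨hK, hcol⟩
    rw [mem_suc] at hba
    rcases hba with hba | rfl
    · rcases hcol with rfl | ⟨hK, hcol⟩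
      · obtain ⟨x, hx⟩ := h6 b hba
        exact ⟨x, (het _ _ _).2 (Or.inl hx)⟩
      · obtain ⟨x, hx⟩ := h5 K b hcol hba
        exact ⟨x, (het _ _ _).2 (Or.inl hx)⟩
    · rcases hcol with rfl | ⟨hK, hcol⟩
      · exact ⟨_, (het _ _ _).2 (Or.inr (Or.inl ⟨rfl, rfl, rfl⟩))⟩
      · exact ⟨_, (het _ _ _).2 (Or.inr (Or.inr ⟨hK, hcol, rfl, rfl⟩))⟩
  · -- column `emp`
    intro b hba
    rw [mem_suc] at hba
    rcases hba with hba | rfl
    · obtain ⟨x, hx⟩ := h6 b hba
      exact ⟨x, (het _ _ _).2 (Or.inl hx)⟩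
    · exact ⟨_, (het _ _ _).2 (Or.inr (Or.inl ⟨rfl, rfl, rfl⟩))⟩
  · intro b x hx
    rw [hete] at hx
    rcases hx with hx | ⟨rfl, rfl⟩
    · exact h7 b x hx
    · exact ⟨t, g, rfl, hlo.ctb, hg⟩
  · -- tree laws
    intro b v hv
    rw [hlv] at hv
    rcases hv with hv | ⟨rfl, hv⟩
    · exact ht.1 b v hv
    · exact hlo.nod v hv
  · intro x hx
    rw [hete] at hx
    rw [hlv]
    rcases hx with hx | ⟨he, _⟩
    · exact Or.inl (ht.2.1 x hx)
    · exact Or.inr ⟨he, hlo.zero he.symm⟩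
  · intro b v c hv hcb
    rw [hlv] at hv
    rw [hlv]
    rcases hv with hv | ⟨rfl, hv⟩
    · exact Or.inl (ht.2.2.1 b v c hv hcb)
    · exact Or.inl (hlo.down v c hv hcb)
  · intro c v b x F hv hcb hx hF hFs hav
    rw [hete] at hx
    rcases hx with hx | ⟨rfl, rfl⟩
    · have hba := (hent hx).2.1
      obtain ⟨v', hv', hs, hav'⟩ :=
        ht.2.2.2 c v b x F (hlva (hao.trans hba hcb) hv) hcb hx hF hFs hav
      exact ⟨v', (hlv _ _).2 (Or.inl hv'), hs, hav'⟩
    · obtain ⟨v', hv', hs, hav'⟩ := hlo.up c v F hcb (hlva hcb hv) hF hFs hav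
      exact ⟨v', (hlv _ _).2 (Or.inr ⟨rfl, hv'⟩), hs, hav'⟩
  · -- column laws
    intro K hK
    obtain ⟨k1, k2, k3, k4, k5, k6, k7, k8⟩ := hk K hK
    refine ⟨?_, ?_, ?_, ?_, ?_, ?_, ?_, ?_⟩
    · intro b x hx
      rw [hetK hK] at hx
      rcases hx with hx | ⟨hcol, rfl, rfl⟩
      · exact k1 b x hx
      · exact (hro K hK hcol).ctb
    · intro x hx
      rw [hetK hK] at hx
      rcases hx with hx | ⟨hcol, he, _⟩
      · exact k2 x hx
      · obtain ⟨b, x', hx'⟩ := hcol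
        have := (hent hx').2.1
        rw [← he] at this
        exact absurd this (not_mem_emp b)
    · intro b v F hv
      rw [hin hK] at hv
      rw [hlv]
      rcases hv with hv | ⟨hcol, rfl, hv⟩
      · obtain ⟨h8, h9⟩ := k3 b v F hv
        exact ⟨Or.inl h8, h9⟩
      · obtain ⟨h8, h9⟩ := (hro K hK hcol).nod v F hv
        exact ⟨Or.inr ⟨rfl, h8⟩, h9⟩
    · intro b v F F' hv hv'
      rw [hin hK] at hv hv'
      rcases hv with hv | ⟨hcol, rfl, hv⟩
      · rcases hv' with hv' | ⟨hcol, rfl, hv'⟩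
        · exact k4 b v F F' hv hv'
        · exact absurd (hinp hv) hnaa
      · rcases hv' with hv' | ⟨_, _, hv'⟩
        · exact absurd (hinp hv') hnaa
        · exact (hro K hK hcol).fn v F F' hv hv'
    · intro c b v F e hcb hv hab he
      rcases hact1 hK hab with hab | ⟨hcol, rfl, hz⟩
      · have hba := hactp hab
        obtain ⟨v', F', hv', h8⟩ :=
          k5 c b v F e hcb (hina hK (hao.trans hba hcb) hv) hab he
        exact ⟨v', F', (hin hK _ _ _).2 (Or.inl hv'), h8⟩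
      · obtain ⟨v', F', hv', h8⟩ := (hro K hK hcol).up c v F e hcb (hina hK hcb hv) hz he
        exact ⟨v', F', (hin hK _ _ _).2 (Or.inr ⟨hcol, rfl, hv'⟩), h8⟩
    · intro c b v F hcb hv hac
      rw [hin hK] at hv
      rcases hv with hv | ⟨hcol, rfl, hv⟩
      · have hba := hinp hv
        obtain ⟨F', hF'⟩ := k6 c b v F hcb hv (hacta hK (hao.trans hba hcb) hac)
        exact ⟨F', (hin hK _ _ _).2 (Or.inl hF')⟩
      · obtain ⟨F', hF'⟩ := (hro K hK hcol).down c v F hcb hv (hacta hK hcb hac)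
        exact ⟨F', (hin hK _ _ _).2 (Or.inl hF')⟩
    · intro b v F v' F' u hv hv' hm
      rw [hin hK] at hv hv'
      rcases hv with hv | ⟨hcol, rfl, hv⟩
      · rcases hv' with hv' | ⟨hcol, rfl, hv'⟩
        · obtain ⟨r, hr, hr'⟩ := k7 b v F v' F' u hv hv' hm
          exact ⟨r, hr.trans hpq, hr'⟩
        · exact absurd (hinp hv) hnaa
      · rcases hv' with hv' | ⟨_, _, hv'⟩
        · exact absurd (hinp hv') hnaa
        · obtain ⟨r, hr, hr'⟩ := (hro K hK hcol).mt v F v' F' u hv hv' hm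
          exact ⟨r, hr.trans hpq, hr'⟩
    · intro b x hx hbe hlim
      rw [hetK hK] at hx
      rcases hx with hx | ⟨hcol, rfl, rfl⟩
      · have hba := (hent hx).2.1
        obtain ⟨v, F, hv⟩ := k8 b x hx hbe fun c hc => by
          obtain ⟨d, hd, hcd, hda⟩ := hlim c hc
          exact ⟨d, hd, hcd, hacta hK (hao.trans hba hd) hda⟩
        exact ⟨v, F, (hin hK _ _ _).2 (Or.inl hv)⟩
      · obtain ⟨z, hz⟩ := (hro K hK hcol).lim hbe fun c hc => by
          obtain ⟨d, hd, hcd, hda⟩ := hlim c hc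
          exact ⟨d, hd, hcd, hacta hK hd hda⟩
        obtain ⟨v, F, rfl⟩ := (hro K hK hcol).ctb.2 z hz
        exact ⟨v, F, (hin hK _ _ _).2 (Or.inr ⟨hcol, rfl, hz⟩)⟩
  · exact (hete _ _).2 (Or.inr ⟨rfl, rfl⟩)
  · intro K hK
    constructor
    · rintro ⟨b, x, hx⟩
      rw [hetK hK] at hx
      rcases hx with hx | ⟨hcol, _⟩
      · exact ⟨b, x, hx⟩
      · exact hcol
    · rintro ⟨b, x, hx⟩
      exact ⟨b, x, (hetK hK _ _).2 (Or.inl hx)⟩
  · intro K hK hcol
    exact (hetK hK _ _).2 (Or.inr ⟨hcol, rfl, rfl⟩)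

end

theorem ct_row (hcba : CBAStmt) (hwf : WFStmt) (hzf : ZFXStmt) : ROWStmt := by
  intro M _ _ w Z I a p t g h hb hI hc hh hlo hg hro
  exact row_main hb hI hc hh hlo hg hro (hcba M) (hzf M w Z hb) (hwf M w hb.w1)

end SW
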