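import Pool.Agent.H93.CT.Stmts
import Pool.Agent.H97.MA.CTR

/-!
Module TRL of project CT: translation to the definitions used in the final statement.
-/

set_option linter.unusedVariables false
set_option linter.unusedSectionVars false
set_option synthInstance.maxSize 100000

namespace SW

section
variable {M : Type} [SetStr M] [ZF M]

theorem trl_res {u v a : M} : IsRestriction u v a ↔ u = res v a := by
  unfold IsRestriction
  constructor
  · intro h
    refine ext fun z => ?_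
    rw [h, mem_res]
    simp only [isOP_iff]
  · rintro rfl z
    rw [mem_res]
    simp only [isOP_iff]

theorem trl_meet {u x y : M} : IsMeetOf u x y ↔ Mt x y u := by
  unfold IsMeetOf Mt
  simp only [trl_res, pairIn_iff]
  constructor
  · rintro ⟨d, ⟨m, n, h1, h2, h3⟩, h4, h5⟩
    exact ⟨d, m, n, h1, h2, h3, h4, h5⟩
  · rintro ⟨d, m, n, h1, h2, h3, h4, h5⟩
    exact ⟨d, ⟨m, n, h1, h2, h3⟩, h4, h5⟩

theorem trl_dmn {a v : M} (h : Fj a v) : dmn v = a := by
  refine ext fun x => ?_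
  rw [mem_dmn]
  constructor
  · rintro ⟨n, hn⟩
    obtain ⟨x', n', h1, _, h2⟩ := h.1 _ hn
    rw [opair_inj] at h2
    rw [h2.1]
    exact h1
  · exact h.2.1 x

theorem trl_fun {a v : M} (h : Fj a v) : IsFunction v a om := by
  refine ⟨fun z hz => ?_, fun x hx => ?_⟩
  · obtain ⟨x, n, h1, h2, h3⟩ := h.1 z hz
    exact ⟨x, n, h1, h2, isOP_iff.2 h3⟩
  · obtain ⟨n, hn⟩ := h.2.1 x hx
    exact ⟨n, pairIn_iff.2 hn, fun n' hn' => h.2.2.1 x n' n (pairIn_iff.1 hn') hn⟩

theorem trl_fdm {a v : M} (h : IsFunction v a om) : dmn v = a := by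
  refine ext fun x => ?_
  rw [mem_dmn]
  constructor
  · rintro ⟨n, hn⟩
    obtain ⟨x', n', h1, _, h2⟩ := h.1 _ hn
    rw [isOP_iff, opair_inj] at h2
    rw [h2.1]
    exact h1
  · intro hx
    obtain ⟨n, hn, _⟩ := h.2 x hx
    exact ⟨n, pairIn_iff.1 hn⟩

/-- two members of a chain with the same domain are equal -/
theorem trl_eq {a u v : M} (hu : Fj a u) (hv : Fj a v) (h : Sub u v) : u = v := by
  refine Sub.antisymm h fun z hz => ?_
  obtain ⟨x, n, hx, _, rfl⟩ := hv.1 z hz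
  obtain ⟨m, hm⟩ := hu.2.1 x hx
  rw [hv.2.2.1 x n m hz (h _ hm)]
  exact hm

theorem trl_chain {w T C : M} (hC : CbA M) (hw : IsW w) (hf : WFacts w) (hT : TrN w T)
    (hs : Sub C T) (hch : ∀ u v, E u C → E v C → Sub u v ∨ Sub v u) : Cb C := by
  by_contra hcb
  have hdf : Fn1 (fun v : M => dmn v) := dmn_df
  have hdm : ∀ {v : M}, E v C → E (dmn v) w ∧ Fj (dmn v) v := by
    intro v hv
    obtain ⟨a, ha, h⟩ := hT.fn v (hs v hv)
    rw [trl_dmn h]
    exact ⟨ha, h⟩
  have hsw : Sub (img C (fun v => dmn v)) w := by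
    intro a ha
    rw [mem_img' hdf] at ha
    obtain ⟨v, hv, rfl⟩ := ha
    exact (hdm hv).1
  have hns : ¬ Cb (img C (fun v => dmn v)) := by
    intro hns
    refine hcb (hC.inj _ hdf hns (fun v hv => (mem_img' hdf).2 ⟨v, hv, rfl⟩) ?_)
    intro u v hu hv he
    have h1 := (hdm hu).2
    have h2 := (hdm hv).2
    rw [← he] at h2
    rcases hch u v hu hv with h | h
    · exact trl_eq h1 h2 h
    · exact (trl_eq h2 h1 h).symm
  refine hw.2.1 ⟨sUn C, fun a ha => ?_, fun a a' n _ _ _ h h' => ?_⟩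
  · obtain ⟨b, hb, hab⟩ := hf.unb hsw hns a ha
    rw [mem_img' hdf] at hb
    obtain ⟨v, hv, rfl⟩ := hb
    obtain ⟨n, hn⟩ := mem_dmn.1 hab
    obtain ⟨x', n', _, h1, h2⟩ := (hdm hv).2.1 _ hn
    rw [opair_inj] at h2
    refine ⟨n, ?_, ?_⟩
    · rw [h2.2]
      exact h1
    · rw [mem_sUn]
      exact ⟨v, hv, hn⟩
  · rw [mem_sUn] at h h'
    obtain ⟨v, hv, h⟩ := h
    obtain ⟨v', hv', h'⟩ := h'
    rcases hch v v' hv hv' with h1 | h1
    · exact (hdm hv').2.2.2.2 a a' n (h1 _ h) h'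
    · exact (hdm hv).2.2.2.2 a a' n h (h1 _ h')

theorem trl_main {w T : M} (hC : CbA M) (hctr : ∀ x : M, IsCountable x ↔ Cb x) (hw : IsW w)
    (hf : WFacts w) (hT : TrN w T) (hcat : CatN T) :
    IsOmegaOne w ∧ IsOmega (om : M) ∧ IsAronszajnTree w om T ∧ SatisfiesCAT T := by
  refine ⟨⟨hw.1, ?_, fun a ha => (hctr a).2 (hw.2.2 a ha)⟩, ctr_omega.2 rfl, ⟨⟨?_, ?_⟩, ?_, ?_, ?_⟩,
    ?_⟩
  · rw [hctr]
    exact hw.2.1
  · intro v hv
    obtain ⟨a, ha, h⟩ := hT.fn v hv
    exact ⟨a, ha, trl_fun h⟩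
  · intro v u a hv ha hu
    rw [trl_res] at hu
    subst hu
    obtain ⟨b, hb, h⟩ := hT.fn v hv
    by_cases hab : E a b
    · exact hT.res v a hv (by rw [trl_dmn h]; exact hab)
    · have hba : Sub b a := ((hf.ord ha).not_mem_iff (hf.ord hb)).1 hab
      have : res v a = v := ext fun z => by
        rw [mem_res]
        refine ⟨fun h => h.1, fun hz => ⟨hz, ?_⟩⟩
        obtain ⟨x, n, hx, _, rfl⟩ := h.1 z hz
        exact ⟨x, n, hba x hx, rfl⟩
      rw [this]
      exact hv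
  · intro a ha
    by_cases hae : a = emp
    · subst hae
      refine ⟨emp, hT.emp, fun z hz => absurd hz (not_mem_emp z),
        fun x hx => absurd hx (not_mem_emp x)⟩
    · have hde : dmn (emp : M) = emp := eq_emp fun x hx => by
        rw [mem_dmn] at hx
        obtain ⟨y, hy⟩ := hx
        exact not_mem_emp _ hy
      obtain ⟨v', hv', _, _, hd⟩ := hT.ext emp a emp hT.emp ha
        (by rw [hde]; exact emp_mem_ord (hf.ord ha) hae) finF.emp
        (fun z hz => absurd hz (not_mem_emp z)) (fun n x hn => absurd hn (not_mem_emp n))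
      obtain ⟨b, hb, h⟩ := hT.fn v' hv'
      rw [trl_dmn h] at hd
      subst hd
      exact ⟨v', hv', trl_fun h⟩
  · intro a L ha hL
    rw [hctr]
    refine hC.sub (hT.lev a ha) fun v hv => ?_
    obtain ⟨h1, h2⟩ := (hL v).1 hv
    rw [mem_sep]
    exact ⟨h1, trl_fdm h2⟩
  · intro C hCT hch
    rw [hctr]
    exact trl_chain hC hw hf hT hCT hch
  · intro K hK
    obtain ⟨A, hA, hA1, hA2, hA3⟩ := hcat K hK
    refine ⟨A, hA, ?_, ?_, ?_⟩
    · rw [hctr]
      exact hA1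
    · intro x y hx hy hxy
      obtain ⟨h1, u, hu⟩ := hA2 x y hx hy hxy
      exact ⟨h1, u, trl_meet.2 hu⟩
    · rcases hA3 with h | h
      · exact Or.inl fun x y u hx hy hxy hu => h x y u hx hy hxy (trl_meet.1 hu)
      · exact Or.inr fun x y u hx hy hxy hu => h x y u hx hy hxy (trl_meet.1 hu)

end

theorem ct_trl (hcba : CBAStmt) (hctr : CTRStmt) (hwf : WFStmt) : TRLStmt := by
  intro M _ _ w T hw hT hcat
  exact trl_main (hcba M) (hctr M) hw (hwf M w hw) hT hcat

end SW
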